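import Pool.Agent.N139.WS.Stm

/-!
# Project WS (helper139), part NOEX: two of three properties

By helper374.
-/

set_option autoImplicit false

namespace Pool.Agent.N374.WS

open Pool.Agent.N139.WS

theorem cc_bb (i : ℕ) : cc * bb i = (zz i * zz 0) * (bb i * cc) := by
  ext1
  · simp [WG.mul_x, cc, bb, zz]
  · simp [WG.mul_y, cc, bb, zz]
  · simp [WG.mul_z, WG.mul_x, WG.mul_y, WG.mul_e, WG.mul_b, cc, bb, zz, TT_apply, sm_single]
  · simp [WG.mul_b, cc, bb, zz]
  · simp [WG.mul_e, cc, bb, zz]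

theorem xx_yy (i : ℕ) : xx i * yy i = zz i * (yy i * xx i) := by
  ext1
  · simp [WG.mul_x, xx, yy, zz]
  · simp [WG.mul_y, xx, yy, zz]
  · simp [WG.mul_z, WG.mul_x, WG.mul_y, WG.mul_e, WG.mul_b, xx, yy, zz, ← Finsupp.single_mul]
  · simp [WG.mul_b, xx, yy, zz]
  · simp [WG.mul_e, xx, yy, zz]

theorem xx_yy' {i j : ℕ} (h : i ≠ j) : xx i * yy j = yy j * xx i := by
  ext1
  · simp [WG.mul_x, xx, yy]
  · simp [WG.mul_y, xx, yy]
  · ext n
    simp only [WG.mul_z, xx, yy, Finsupp.add_apply, Finsupp.mul_apply, zero_smul, Finsupp.zero_apply,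
      Finsupp.single_apply]
    by_cases h1 : i = n
    · subst h1
      simp [Ne.symm h]
    · simp [h1]
  · simp [WG.mul_b, xx, yy]
  · simp [WG.mul_e, xx, yy]

theorem two0 (i : ℕ) : (Finsupp.single i 1 : VV) + Finsupp.single i 1 = 0 := by
  rw [← Finsupp.single_add, CharTwo.add_self_eq_zero, Finsupp.single_zero]

theorem xx_xx (i : ℕ) : xx i * xx i = 1 := by
  ext1
  · simp [WG.mul_x, xx, WG.one_x, two0]
  · simp [WG.mul_y, xx, WG.one_y]
  · simp [WG.mul_z, xx, WG.one_z]
  · simp [WG.mul_b, xx, WG.one_b]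
  · simp [WG.mul_e, xx, WG.one_e]

theorem yy_yy (i : ℕ) : yy i * yy i = 1 := by
  ext1
  · simp [WG.mul_x, yy, WG.one_x]
  · simp [WG.mul_y, yy, WG.one_y, two0]
  · simp [WG.mul_z, yy, WG.one_z]
  · simp [WG.mul_b, yy, WG.one_b]
  · simp [WG.mul_e, yy, WG.one_e]

theorem nontriv {k : ℕ} (hk : 0 < k) : (1 : MM k) ≠ 0 := by
  intro h
  have h1 := congrArg (fun A : MM k => A (EuclideanSpace.single ⟨0, hk⟩ (1 : ℂ))) h
  have h2 : (EuclideanSpace.single (⟨0, hk⟩ : Fin k) (1 : ℂ)) = 0 := h1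
  have h3 := congrArg norm h2
  simp at h3

theorem core {A : Type} [Ring A] [Algebra ℂ A] [Module.Finite ℂ A] (hnt : (1 : A) ≠ 0)
    (v : WG → A) (hvm : ∀ g h, v (g * h) = v g * v h) (h1 : v 1 = 1) (hc : v cc = 1)
    (hz : v (zz 0) = -1) : False := by
  have hinv : ∀ g, v g * v g⁻¹ = 1 := fun g => by rw [← hvm, mul_inv_cancel, h1]
  have hzi : ∀ i, v (zz i) = -1 := by
    intro i
    have h2 := congrArg v (cc_bb i)
    rw [hvm, hvm, hvm (bb i), hc, one_mul, mul_one] at h2
    have h3 : v (zz i * zz 0) = 1 := by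
      calc v (zz i * zz 0) = v (zz i * zz 0) * (v (bb i) * v (bb i)⁻¹) := by
            rw [hinv, mul_one]
        _ = (v (zz i * zz 0) * v (bb i)) * v (bb i)⁻¹ := by rw [mul_assoc]
        _ = v (bb i) * v (bb i)⁻¹ := by rw [← h2]
        _ = 1 := hinv _
    rw [hvm, hz, mul_neg, mul_one] at h3
    rw [← h3, neg_neg]
  have hXX : ∀ i, v (xx i) * v (xx i) = 1 := fun i => by rw [← hvm, xx_xx, h1]
  have hYY : ∀ i, v (yy i) * v (yy i) = 1 := fun i => by rw [← hvm, yy_yy, h1]
  have hXY : ∀ i, v (xx i) * v (yy i) = -(v (yy i) * v (xx i)) := fun i => by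
    rw [← hvm, xx_yy, hvm, hzi, hvm, neg_one_mul]
  have hXY' : ∀ i j, i ≠ j → v (xx i) * v (yy j) = v (yy j) * v (xx i) := fun i j h => by
    rw [← hvm, xx_yy' h, hvm]
  have hcon : ∀ i j, v (yy j) * v (xx i) * v (yy j) = if i = j then -v (xx i) else v (xx i) := by
    intro i j
    split_ifs with h
    · subst h
      rw [mul_assoc, hXY, mul_neg, ← mul_assoc, hYY, one_mul]
    · rw [mul_assoc, hXY' i j h, ← mul_assoc, hYY, one_mul]
  have hLI : LinearIndependent ℂ (fun i => v (xx i)) := by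
    rw [linearIndependent_iff']
    intro s a ha j hj
    have e1 : ∑ i ∈ s, a i • (v (yy j) * v (xx i) * v (yy j)) = 0 := by
      have : v (yy j) * (∑ i ∈ s, a i • v (xx i)) * v (yy j) = 0 := by rw [ha, mul_zero, zero_mul]
      rw [Finset.mul_sum, Finset.sum_mul] at this
      rw [← this]
      refine Finset.sum_congr rfl fun i _ => ?_
      rw [mul_smul_comm, smul_mul_assoc]
    have e2 : ∑ i ∈ s, a i • (v (xx i) - v (yy j) * v (xx i) * v (yy j)) = 0 := by
      simp only [smul_sub, Finset.sum_sub_distrib, ha, e1, sub_zero]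
    have e3 : ∑ i ∈ s, a i • (v (xx i) - v (yy j) * v (xx i) * v (yy j)) =
        a j • (v (xx j) + v (xx j)) := by
      rw [Finset.sum_eq_single j]
      · rw [hcon, if_pos rfl, sub_neg_eq_add]
      · intro b _ hb
        rw [hcon, if_neg hb, sub_self, smul_zero]
      · intro h
        exact absurd hj h
    rw [e3, ← two_smul ℂ, smul_smul] at e2
    rcases smul_eq_zero.1 e2 with h | h
    · rcases mul_eq_zero.1 h with h | h
      · exact h
      · exact absurd h two_ne_zero
    · exfalso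
      apply hnt
      rw [← hXX j, h, mul_zero]
  have := hLI.finite
  exact Infinite.not_finite (α := ℕ) this

/-- There is no finite-dimensional representation with these values. -/
theorem t_NOEX : S_NOEX := by
  intro k v hk hv h1 hc hz
  exact core (nontriv hk) v hv.mul h1 hc hz

end Pool.Agent.N374.WS
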